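import Pool.Agent.Lib.MP_062ce2_co.Defs

namespace Pool.Agent.Lib.MP_062ce2_co

open MvPolynomial

/-- multigraph from ordered end pairs -/
def ofPairs (n m : ℕ) (ep : Fin m → Fin n × Fin n) : MGraph n m :=
  ⟨fun e => s((ep e).1, (ep e).2)⟩

def merge (l : List ℕ) (u v : ℕ) : List ℕ :=
  l.map (fun x => if x = l.getD v 0 then l.getD u 0 else x)

def labL {n m : ℕ} (ep : Fin m → Fin n × Fin n) (es : List (Fin m)) : List ℕ :=
  es.foldr (fun e l => merge l (ep e).1 (ep e).2) (List.range n)

theorem length_labL {n m : ℕ} (ep : Fin m → Fin n × Fin n) (es : List (Fin m)) :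
    (labL ep es).length = n := by
  induction es with
  | nil => simp [labL]
  | cons e es ih =>
    have : labL ep (e :: es) = merge (labL ep es) (ep e).1 (ep e).2 := rfl
    rw [this, merge, List.length_map, ih]

theorem getD_merge (l : List ℕ) (u v w : ℕ) (hw : w < l.length) :
    (merge l u v).getD w 0 = if l.getD w 0 = l.getD v 0 then l.getD u 0 else l.getD w 0 := by
  unfold merge
  rw [List.getD_eq_getElem _ _ (by simpa using hw), List.getElem_map, List.getD_eq_getElem _ _ hw]

def spanL {n m : ℕ} (ep : Fin m → Fin n × Fin n) (es : List (Fin m)) : SimpleGraph (Fin n) :=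
  SimpleGraph.fromEdgeSet {s | ∃ e ∈ es, s((ep e).1, (ep e).2) = s}

theorem spanL_mono {n m : ℕ} (ep : Fin m → Fin n × Fin n) (e : Fin m) (es : List (Fin m)) :
    spanL ep es ≤ spanL ep (e :: es) := by
  apply SimpleGraph.fromEdgeSet_mono
  rintro s ⟨e', he', rfl⟩
  exact ⟨e', List.mem_cons_of_mem _ he', rfl⟩

theorem reach_edge {n m : ℕ} (ep : Fin m → Fin n × Fin n) (es : List (Fin m)) (e : Fin m)
    (he : e ∈ es) : (spanL ep es).Reachable (ep e).1 (ep e).2 := by
  by_cases h : (ep e).1 = (ep e).2
  · rw [h]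
  · apply SimpleGraph.Adj.reachable
    rw [spanL, SimpleGraph.fromEdgeSet_adj]
    exact ⟨⟨e, he, rfl⟩, h⟩

theorem reach_of_lab {n m : ℕ} (ep : Fin m → Fin n × Fin n) (es : List (Fin m)) (a b : Fin n)
    (h : (labL ep es).getD a 0 = (labL ep es).getD b 0) : (spanL ep es).Reachable a b := by
  induction es generalizing a b with
  | nil =>
    have ha : (labL ep []).getD a 0 = a := by simp [labL, List.getD_eq_getElem?_getD]
    have hb : (labL ep []).getD b 0 = b := by simp [labL, List.getD_eq_getElem?_getD]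
    rw [ha, hb] at h
    rw [Fin.ext h]
  | cons e es ih =>
    have h0 : labL ep (e :: es) = merge (labL ep es) (ep e).1 (ep e).2 := rfl
    have hl := length_labL ep es
    rw [h0, getD_merge _ _ _ _ (by rw [hl]; exact a.2),
      getD_merge _ _ _ _ (by rw [hl]; exact b.2)] at h
    have mono : ∀ x y, (spanL ep es).Reachable x y → (spanL ep (e :: es)).Reachable x y :=
      fun x y hxy => hxy.mono (spanL_mono ep e es)
    have he := reach_edge ep (e :: es) e (List.mem_cons_self)
    split_ifs at h with h1 h2 h2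
    · exact mono _ _ (ih _ _ (h1.trans h2.symm))
    · exact ((mono _ _ (ih _ _ h1)).trans he.symm).trans (mono _ _ (ih _ _ h))
    · exact ((mono _ _ (ih _ _ h)).trans he).trans (mono _ _ (ih _ _ h2.symm))
    · exact mono _ _ (ih _ _ h)

theorem lab_edge {n m : ℕ} (ep : Fin m → Fin n × Fin n) (es : List (Fin m)) (e : Fin m)
    (he : e ∈ es) : (labL ep es).getD (ep e).1 0 = (labL ep es).getD (ep e).2 0 := by
  induction es with
  | nil => simp at he
  | cons e' es ih =>
    have h0 : labL ep (e' :: es) = merge (labL ep es) (ep e').1 (ep e').2 := rfl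
    have hl := length_labL ep es
    rw [h0, getD_merge _ _ _ _ (by rw [hl]; exact (ep e).1.2),
      getD_merge _ _ _ _ (by rw [hl]; exact (ep e).2.2)]
    rcases List.mem_cons.1 he with rfl | he
    · simp
    · rw [ih he]

theorem lab_of_reach {n m : ℕ} (ep : Fin m → Fin n × Fin n) (es : List (Fin m)) (a b : Fin n)
    (h : (spanL ep es).Reachable a b) : (labL ep es).getD a 0 = (labL ep es).getD b 0 := by
  obtain ⟨w⟩ := h
  induction w with
  | nil => rfl
  | cons hadj _ ih =>
    rw [← ih]
    rw [spanL, SimpleGraph.fromEdgeSet_adj] at hadj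
    obtain ⟨⟨e, he, hs⟩, -⟩ := hadj
    have := lab_edge ep es e he
    rcases Sym2.eq_iff.1 hs with ⟨h1, h2⟩ | ⟨h1, h2⟩
    · rw [← h1, ← h2]; exact this
    · rw [← h1, ← h2]; exact this.symm

def lab {n m : ℕ} (ep : Fin m → Fin n × Fin n) (A : Finset (Fin m)) : List ℕ :=
  labL ep ((List.finRange m).filter (fun e => decide (e ∈ A)))

theorem lab_iff {n m : ℕ} (ep : Fin m → Fin n × Fin n) (A : Finset (Fin m)) (a b : Fin n) :
    (lab ep A).getD a 0 = (lab ep A).getD b 0 ↔ ((ofPairs n m ep).span A).Reachable a b := by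
  have : (ofPairs n m ep).span A
      = spanL ep ((List.finRange m).filter (fun e => decide (e ∈ A))) := by
    unfold MGraph.span spanL
    congr 1
    ext s
    simp [ofPairs]
  rw [this]
  exact ⟨reach_of_lab ep _ a b, lab_of_reach ep _ a b⟩

/-- (vertices, edges) of each component, computably -/
def skeyOf {n m : ℕ} (ep : Fin m → Fin n × Fin n) (A : Finset (Fin m)) (l : List ℕ) :
    Multiset (ℕ × ℕ) :=
  (Finset.univ.image (fun v : Fin n => l.getD v 0)).val.map (fun r =>
    ((Finset.univ.filter (fun v : Fin n => l.getD v 0 = r)).card,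
     (A.filter (fun e => l.getD (ep e).1 0 = r)).card))

def skey {n m : ℕ} (ep : Fin m → Fin n × Fin n) (A : Finset (Fin m)) : Multiset (ℕ × ℕ) :=
  skeyOf ep A (lab ep A)

theorem comps_key {n m : ℕ} (ep : Fin m → Fin n × Fin n) (A : Finset (Fin m)) :
    ((ofPairs n m ep).comps A).val.map
      (fun C => ((ofPairs n m ep).nV A C, (ofPairs n m ep).nE A C)) = skey ep A := by
  classical
  set G := ofPairs n m ep with hG
  let f : Fin n → ℕ := fun v => (lab ep A).getD v 0
  have hf : ∀ a b : Fin n, f a = f b ↔ (G.span A).Reachable a b := lab_iff ep A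
  let F : (G.span A).ConnectedComponent → ℕ :=
    SimpleGraph.ConnectedComponent.lift f (fun a b p _ => (hf a b).2 ⟨p⟩)
  have hF : ∀ v : Fin n, F ((G.span A).connectedComponentMk v) = f v := fun v => rfl
  have hmem : ∀ (C : (G.span A).ConnectedComponent) (v : Fin n), v ∈ C.supp ↔ f v = F C := by
    intro C v
    induction C using SimpleGraph.ConnectedComponent.ind with
    | _ w =>
      rw [SimpleGraph.ConnectedComponent.mem_supp_iff, SimpleGraph.ConnectedComponent.eq, hF, hf]
  unfold skey skeyOf
  refine Multiset.map_eq_map_of_bij_of_nodup _ _ (G.comps A).nodup (Finset.nodup _)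
    (fun C _ => F C) ?_ ?_ ?_ ?_
  · intro C _
    induction C using SimpleGraph.ConnectedComponent.ind with
    | _ w =>
      rw [Finset.mem_val]
      exact Finset.mem_image.2 ⟨w, Finset.mem_univ _, rfl⟩
  · intro C _ D _ h
    induction C using SimpleGraph.ConnectedComponent.ind with
    | _ v =>
      induction D using SimpleGraph.ConnectedComponent.ind with
      | _ w => exact SimpleGraph.ConnectedComponent.eq.2 ((hf v w).1 h)
  · intro r hr
    rw [Finset.mem_val] at hr
    obtain ⟨v, -, rfl⟩ := Finset.mem_image.1 hr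
    exact ⟨(G.span A).connectedComponentMk v, by simp [MGraph.comps], rfl⟩
  · intro C _
    refine Prod.ext ?_ ?_
    · show C.supp.ncard = _
      rw [← Set.ncard_coe_finset]
      congr 1
      ext v
      rw [hmem C v]
      simp [f]
    · show Set.ncard _ = Finset.card _
      rw [← Set.ncard_coe_finset]
      refine congrArg Set.ncard ?_
      ext e
      have he : e ∈ A → f (ep e).1 = f (ep e).2 := fun h =>
        lab_edge ep _ e (by simpa using h)
      simp only [Set.mem_ofPred_eq, Finset.coe_filter]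
      constructor
      · rintro ⟨h1, h2⟩
        exact ⟨h1, (hmem C _).1 (h2 _ (Sym2.mem_mk_left _ _))⟩
      · rintro ⟨h1, h2⟩
        refine ⟨h1, fun v hv => (hmem C v).2 ?_⟩
        rcases Sym2.mem_iff.1 hv with rfl | rfl
        · exact h2
        · exact (he h1).symm.trans h2

def ukey {n m : ℕ} (ep : Fin m → Fin n × Fin n) (A : Finset (Fin m)) : ℕ × Multiset ℕ :=
  (A.card, (skey ep A).map Prod.fst)

noncomputable def umon (n : ℕ) (k : ℕ × Multiset ℕ) : MvPolynomial (Option ℕ) ℤ :=
  (k.2.map (fun i => X (some i))).prod * (X none - 1) ^ (k.1 - (n - k.2.card))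

theorem U_eq {n m : ℕ} (ep : Fin m → Fin n × Fin n) :
    (ofPairs n m ep).U = ((Finset.univ.val.map (ukey ep)).map (umon n)).sum := by
  rw [Multiset.map_map]
  unfold MGraph.U
  refine Finset.sum_congr rfl (fun A _ => ?_)
  simp only [Function.comp, umon, ukey, ← comps_key, Multiset.map_map, Multiset.card_map]
  rfl

theorem eval_strongU {n m : ℕ} (ep : Fin m → Fin n × Fin n) (g : ℕ × ℕ → ℤ) :
    MvPolynomial.eval g (ofPairs n m ep).strongU
      = ∑ A : Finset (Fin m), ((skey ep A).map (fun p => g (p.1, p.2 + 1 - p.1))).prod := by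
  unfold MGraph.strongU
  rw [map_sum]
  refine Finset.sum_congr rfl (fun A _ => ?_)
  rw [map_prod]
  simp only [eval_X, ← comps_key, Multiset.map_map]
  rfl

theorem mult_of_iso {n m n' m' : ℕ} {G : MGraph n m} {H : MGraph n' m'} (h : G.Iso H) :
    ∃ φ : Fin n ≃ Fin n', ∀ u v : Fin n,
      (Finset.univ.filter (fun e => G.ends e = s(u, v))).card
        = (Finset.univ.filter (fun e => H.ends e = s(φ u, φ v))).card := by
  obtain ⟨φ, ψ, h⟩ := h
  refine ⟨φ, fun u v => Finset.card_bijective ψ ψ.bijective (fun e => ?_)⟩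
  simp only [Finset.mem_filter, Finset.mem_univ, true_and, h]
  rw [← Sym2.map_mk φ u v]
  exact (Sym2.map.injective φ.injective).eq_iff.symm

end Pool.Agent.Lib.MP_062ce2_co
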