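import Mathlib

/-!
Finite multigraphs, the U-polynomial and the strong U-polynomial.
-/

namespace Pool.Agent.Lib.MP_062ce2_co

open MvPolynomial

/-- A finite multigraph with vertex set `Fin n` and edge set `Fin m`; the edge `e` joins the two
members of the unordered pair `ends e`. Parallel edges (and loops) are allowed. -/
structure MGraph (n m : ℕ) where
  ends : Fin m → Sym2 (Fin n)

namespace MGraph

variable {n m n' m' : ℕ}

/-- No edge joins a vertex to itself. -/
def Loopless (G : MGraph n m) : Prop := ∀ e, ¬ (G.ends e).IsDiag

/-- Isomorphism of multigraphs: bijections of the vertices and of the edges that respect ends. -/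
def Iso (G : MGraph n m) (H : MGraph n' m') : Prop :=
  ∃ (φ : Fin n ≃ Fin n') (ψ : Fin m ≃ Fin m'), ∀ e, H.ends (ψ e) = (G.ends e).map φ

/-- Adjacency in the spanning subgraph `(V, A)`: two distinct vertices are adjacent when some
edge of `A` joins them. Its connected components are those of `(V, A)`. -/
def span (G : MGraph n m) (A : Finset (Fin m)) : SimpleGraph (Fin n) :=
  SimpleGraph.fromEdgeSet {s | ∃ e ∈ A, G.ends e = s}

/-- The (finite) set of all connected components of `(V, A)`. -/
noncomputable def comps (G : MGraph n m) (A : Finset (Fin m)) :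
    Finset (G.span A).ConnectedComponent :=
  (Set.finite_univ (α := (G.span A).ConnectedComponent)).toFinset

/-- The rank `r(A) = |V| - k(A)`, where `k(A)` is the number of components of `(V, A)`. -/
noncomputable def rank (G : MGraph n m) (A : Finset (Fin m)) : ℕ := n - (G.comps A).card

/-- `|V(C)|`, the number of vertices of the component `C` of `(V, A)`. -/
noncomputable def nV (G : MGraph n m) (A : Finset (Fin m)) (C : (G.span A).ConnectedComponent) : ℕ :=
  C.supp.ncard

/-- `|E(C)|`, the number of edges of `A` whose ends lie in the component `C` of `(V, A)`. -/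
noncomputable def nE (G : MGraph n m) (A : Finset (Fin m)) (C : (G.span A).ConnectedComponent) : ℕ :=
  {e | e ∈ A ∧ ∀ v ∈ G.ends e, v ∈ C.supp}.ncard

/-- The U-polynomial: `X (some i)` is `x_i` and `X none` is `y`. -/
noncomputable def U (G : MGraph n m) : MvPolynomial (Option ℕ) ℤ :=
  ∑ A : Finset (Fin m),
    (∏ C ∈ G.comps A, X (some (G.nV A C))) * (X none - 1) ^ (A.card - G.rank A)

/-- The strong U-polynomial: `X (i, j)` is `z_{i,j}`; a component `C` is recorded by its number
of vertices and its nullity `|E(C)| - |V(C)| + 1`. -/
noncomputable def strongU (G : MGraph n m) : MvPolynomial (ℕ × ℕ) ℤ :=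
  ∑ A : Finset (Fin m), ∏ C ∈ G.comps A, X (G.nV A C, G.nE A C + 1 - G.nV A C)

end MGraph

end Pool.Agent.Lib.MP_062ce2_co
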