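import Pool.Agent.Lib.MP_062ce2_co.Compute

namespace Pool.Agent.Lib.MP_062ce2_co

def epG : Fin 9 → Fin 6 × Fin 6 :=
  ![(0, 4), (1, 4), (1, 5), (2, 3), (2, 5), (2, 5), (3, 4), (3, 5), (4, 5)]

def epH : Fin 9 → Fin 6 × Fin 6 :=
  ![(0, 5), (1, 3), (1, 4), (2, 4), (2, 5), (2, 5), (3, 4), (3, 5), (4, 5)]

theorem keys_eq : Finset.univ.val.map (ukey epG) = Finset.univ.val.map (ukey epH) := by
  decide +kernel

theorem U_G_eq_H : (ofPairs 6 9 epG).U = (ofPairs 6 9 epH).U := by
  rw [U_eq, U_eq, keys_eq]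

/-- indicator evaluation picking out the monomial `z_{3,1}^2` -/
def g31 (p : ℕ × ℕ) : ℤ := if p = (3, 1) then 1 else 0

theorem strong_ne : (ofPairs 6 9 epG).strongU ≠ (ofPairs 6 9 epH).strongU := by
  intro h
  have h2 := congrArg (MvPolynomial.eval g31) h
  rw [eval_strongU, eval_strongU] at h2
  revert h2
  decide +kernel

theorem loopless_G : (ofPairs 6 9 epG).Loopless := by
  unfold MGraph.Loopless
  decide +kernel

theorem loopless_H : (ofPairs 6 9 epH).Loopless := by
  unfold MGraph.Loopless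
  decide +kernel

theorem not_iso : ¬ (ofPairs 6 9 epG).Iso (ofPairs 6 9 epH) := by
  intro h
  have h2 := mult_of_iso h
  revert h2
  decide +kernel

end Pool.Agent.Lib.MP_062ce2_co
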